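import Mathlib
import Pool.Agent.Helper675.SRG02c

set_option autoImplicit false

namespace Pool.Agent.Results.MP_e446a9_co.CentraliserOrder

open Pool.Agent.Helper675.SRG02 Pool.Agent.Helper675.SRG02c

/-- Let `Γ` be a strongly regular graph with `λ = 0`, `μ = 2` and degree `k > 10`.
The centraliser (in the automorphism group) of a group of automorphisms which is transitive on
the vertices has order at most `2`. -/
theorem result {V : Type*} [Fintype V] [DecidableEq V] [Nonempty V] (Γ : SimpleGraph V)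
    [DecidableRel Γ.Adj] (k : ℕ) (h : Γ.IsSRGWith (Fintype.card V) k 0 2) (hk : 10 < k)
    (G : Subgroup (Γ ≃g Γ)) (htr : ∀ x y : V, ∃ g ∈ G, g x = y) :
    Nat.card (Subgroup.centralizer (G : Set (Γ ≃g Γ))) ≤ 2 := by
  obtain ⟨x₀⟩ := (inferInstance : Nonempty V)
  have ht := not_pow Γ h hk x₀
  obtain ⟨p, hp, hp2, hd⟩ : ∃ p : ℕ, p.Prime ∧ p ≠ 2 ∧ p ∣ k - 1 := by
    by_contra hcon
    push Not at hcon
    refine ht _ (Nat.eq_prime_pow_of_unique_prime_dvd (by omega) ?_)
    intro d hd1 hd2
    by_contra hne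
    exact hcon d hd1 hne hd2
  exact card_centraliser Γ hp hp2 h (by omega) hd x₀ (G : Set (Γ ≃g Γ)) htr

end Pool.Agent.Results.MP_e446a9_co.CentraliserOrder
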